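import Mathlib
import Pool.Agent.TH119.IA.Dec

/-!
# The decomposition of the Galois representations attached to a cuspidal representation

Let `H ⊆ GL_m` be an algebraic group over an algebraically closed field `A` of characteristic zero
(think of `A = ℂ`), and let `h_v ∈ H(A)` be elements (Satake parameters) for the primes `v` of a
number field `K`, to which representations `W_j` of the absolute Galois group with values in
`H(k_j)` and Zariski dense image in `H(k_j)` are attached, for various embeddings `ι_j` of `A` in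
topological fields `k_j` (such as the isomorphisms of `ℂ` with the algebraic closures of the fields
`ℚ_ℓ`, for all `ℓ`).  Let `P_v` be polynomials over `A` (the Hecke polynomials of an automorphic
representation `π` of `GL_n`) such that `P_v` divides the characteristic polynomial of
`h_v ^ {⊗ a} ⊗ (h_v ^ ∨) ^ {⊗ b}` for almost all `v`.  If there is a semisimple representation
attached to the `P_v` for one index `j₁`, then there are irreducible algebraic representations `R_i`
of `H` over `A` such that for *all* `j` the irreducible constituents of all representations attached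
to the `P_v` are the `R_i ∘ W_j`.  In particular, these representations are irreducible for all `j`
if they are irreducible for one `j`.
-/

namespace Pool.Agent.Results.MP_fa5bba_nt.DecompositionIndependentOfPrime

open NumberField IsDedekindDomain Polynomial Filter Topology

/-- The absolute Galois group, with the Krull topology. -/
abbrev AbsGal (K : Type) [Field K] : Type := Gal(AlgebraicClosure K/K)

/-- `σ` is a Frobenius element at the prime `v` of `K`: there is a maximal ideal `Q` above `v` of the
ring of all algebraic integers with `σ x ≡ x ^ N(v)` modulo `Q` for all `x`. -/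
def IsFrobenius {K : Type} [Field K] [NumberField K] (v : HeightOneSpectrum (𝓞 K))
    (σ : AbsGal K) : Prop :=
  ∃ Q : Ideal (𝓞 (AlgebraicClosure K)), Q.IsMaximal ∧
    Q.comap (algebraMap (𝓞 K) (𝓞 (AlgebraicClosure K))) = v.asIdeal ∧
    ∀ x : 𝓞 (AlgebraicClosure K), σ • x - x ^ Ideal.absNorm v.asIdeal ∈ Q

/-- The set `S` of primes of `K` has (natural) density zero. Finite sets have density zero. -/
def HasDensityZero {K : Type} [Field K] [NumberField K]
    (S : Set (HeightOneSpectrum (𝓞 K))) : Prop :=
  Tendsto (fun N : ℕ =>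
    ({v : HeightOneSpectrum (𝓞 K) | Ideal.absNorm v.asIdeal ≤ N ∧ v ∈ S}.ncard : ℝ) /
    {v : HeightOneSpectrum (𝓞 K) | Ideal.absNorm v.asIdeal ≤ N}.ncard) atTop (𝓝 0)

/-- The regular functions on `GL_m`: polynomials in the coefficients of a matrix `g` and the
coefficients of `g⁻¹`. -/
abbrev RegularFunction (m : ℕ) (k : Type) [Field k] : Type :=
  MvPolynomial ((Fin m × Fin m) ⊕ (Fin m × Fin m)) k

/-- The value of a regular function at `g`. -/
noncomputable def value {m : ℕ} {k : Type} [Field k] (f : RegularFunction m k)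
    (g : Matrix.GeneralLinearGroup (Fin m) k) : k :=
  MvPolynomial.eval (Sum.elim (fun p => (g : Matrix (Fin m) (Fin m) k) p.1 p.2)
    (fun p => ((g⁻¹ : Matrix.GeneralLinearGroup (Fin m) k) : Matrix (Fin m) (Fin m) k) p.1 p.2)) f

/-- The Zariski closure in `GL_m(k)`. -/
def zariskiClosure {m : ℕ} {k : Type} [Field k] (X : Set (Matrix.GeneralLinearGroup (Fin m) k)) :
    Set (Matrix.GeneralLinearGroup (Fin m) k) :=
  {x | ∀ f : RegularFunction m k, (∀ y ∈ X, value f y = 0) → value f x = 0}

/-- The group `H(k)` of the `k`-valued points of the algebraic group `H ⊆ GL_m` over `A`, for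
`ι : A → k`: the Zariski closure of the image of `H = H(A)` in `GL_m(k)`. -/
def points {m : ℕ} {A k : Type} [Field A] [Field k]
    (H : Subgroup (Matrix.GeneralLinearGroup (Fin m) A)) (ι : A →+* k) :
    Set (Matrix.GeneralLinearGroup (Fin m) k) :=
  zariskiClosure (Matrix.GeneralLinearGroup.map ι '' (H : Set _))

/-- `x, y ∈ H(k)` have the same image under all regular functions on `H` over `k` which are constant
on the conjugacy classes of `H(k)`. -/
def SameClass {m : ℕ} {A k : Type} [Field A] [Field k]
    (H : Subgroup (Matrix.GeneralLinearGroup (Fin m) A)) (ι : A →+* k)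
    (x y : Matrix.GeneralLinearGroup (Fin m) k) : Prop :=
  ∀ f : RegularFunction m k,
    (∀ z ∈ points H ι, ∀ w ∈ points H ι, value f (z * w * z⁻¹) = value f w) →
    value f x = value f y

/-- The representation `W` with values in `H(k)` is attached to the conjugacy classes of the
`h_v ∈ H(A)` outside `S`, where `ι : A → k` is used to compare the classes, and its image is Zariski
dense in `H(k)`. -/
structure IsDenseAndAttachedToClasses {K : Type} [Field K] [NumberField K] {m : ℕ} {A : Type}
    [Field A] (H : Subgroup (Matrix.GeneralLinearGroup (Fin m) A))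
    (h : HeightOneSpectrum (𝓞 K) → Matrix.GeneralLinearGroup (Fin m) A)
    (S : Set (HeightOneSpectrum (𝓞 K))) {k : Type} [Field k] [TopologicalSpace k] (ι : A →+* k)
    (W : AbsGal K →* Matrix.GeneralLinearGroup (Fin m) k) : Prop where
  continuous : Continuous fun g => (W g : Matrix (Fin m) (Fin m) k)
  mem : ∀ σ, W σ ∈ points H ι
  dense : points H ι ⊆ zariskiClosure (Set.range W)
  frobenius : ∀ v ∉ S, ∀ σ, IsFrobenius v σ →
    SameClass H ι (W σ) (Matrix.GeneralLinearGroup.map ι (h v))

/-- The representation `ρ` is attached to the polynomials `P_v` outside `S`, where `ι : A → k` is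
used to compare the coefficients: it is continuous, and the Frobenius elements at the primes `v`
outside `S` have the characteristic polynomial `ι(P_v)`. -/
structure IsAttached {K : Type} [Field K] [NumberField K] {n : ℕ} {A : Type} [Field A]
    (P : HeightOneSpectrum (𝓞 K) → A[X]) (S : Set (HeightOneSpectrum (𝓞 K)))
    {k : Type} [Field k] [TopologicalSpace k] (ι : A →+* k)
    (ρ : AbsGal K →* Matrix.GeneralLinearGroup (Fin n) k) : Prop where
  continuous : Continuous fun g => (ρ g : Matrix (Fin n) (Fin n) k)
  frobenius : ∀ v ∉ S, ∀ σ, IsFrobenius v σ →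
    (ρ σ : Matrix (Fin n) (Fin n) k).charpoly = (P v).map ι

/-- The representation `ρ` is semisimple: every stable subspace has a stable complement. -/
def IsSemisimple {G : Type} [Group G] {n : ℕ} {k : Type} [Field k]
    (ρ : G →* Matrix.GeneralLinearGroup (Fin n) k) : Prop :=
  ∀ V : Submodule k (Fin n → k),
    (∀ g, ∀ x ∈ V, (ρ g : Matrix (Fin n) (Fin n) k).mulVec x ∈ V) →
    ∃ V' : Submodule k (Fin n → k),
      (∀ g, ∀ x ∈ V', (ρ g : Matrix (Fin n) (Fin n) k).mulVec x ∈ V') ∧ IsCompl V V'

/-- The representation `ρ` is irreducible. -/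
def IsIrreducible {G : Type} [Group G] {n : ℕ} {k : Type} [Field k]
    (ρ : G →* Matrix.GeneralLinearGroup (Fin n) k) : Prop :=
  ∀ V : Submodule k (Fin n → k),
    (∀ g, ∀ x ∈ V, (ρ g : Matrix (Fin n) (Fin n) k).mulVec x ∈ V) → V = ⊥ ∨ V = ⊤

/-- The matrix of `g ^ {⊗ a} ⊗ (g ^ ∨) ^ {⊗ b}` in the standard basis: the coefficients are products
of `a` coefficients of `g` and `b` coefficients of the transpose of `g⁻¹`. -/
def tensorConstruction {m : ℕ} {A : Type} [Field A]
    (g : Matrix.GeneralLinearGroup (Fin m) A) (a b : ℕ) :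
    Matrix ((Fin a → Fin m) × (Fin b → Fin m)) ((Fin a → Fin m) × (Fin b → Fin m)) A :=
  Matrix.of fun I J => (∏ s, (g : Matrix (Fin m) (Fin m) A) (I.1 s) (J.1 s)) *
    ∏ t, ((g⁻¹ : Matrix.GeneralLinearGroup (Fin m) A) : Matrix (Fin m) (Fin m) A) (J.2 t) (I.2 t)

/-- The matrix of the values of regular functions. -/
noncomputable def matrixValue {m n : ℕ} {k : Type} [Field k]
    (R : Matrix (Fin n) (Fin n) (RegularFunction m k))
    (g : Matrix.GeneralLinearGroup (Fin m) k) : Matrix (Fin n) (Fin n) k :=
  R.map fun f => value f g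

/-- `R` is an irreducible algebraic representation of `H`, in dimension `n > 0`. -/
def IsIrreducibleRepresentation {m n : ℕ} {A : Type} [Field A]
    (H : Subgroup (Matrix.GeneralLinearGroup (Fin m) A))
    (R : Matrix (Fin n) (Fin n) (RegularFunction m A)) : Prop :=
  ((∀ x ∈ H, ∀ y ∈ H, matrixValue R (x * y) = matrixValue R x * matrixValue R y) ∧
    matrixValue R 1 = 1) ∧ 0 < n ∧
  ∀ V : Submodule A (Fin n → A), (∀ x ∈ H, ∀ v ∈ V, (matrixValue R x).mulVec v ∈ V) →
    V = ⊥ ∨ V = ⊤

/-- **Theorem.** Let `K` be a number field, `A` an algebraically closed field of characteristic zero,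
`H ⊆ GL_m(A)` a subgroup, `h_v ∈ H`, and let `W_j` be representations with values in `H(k_j)` and
Zariski dense image, attached to the classes of the `h_v` outside sets `S_j` of density zero. Let
the polynomials `P_v` over `A` divide the characteristic polynomials of
`h_v ^ {⊗ a} ⊗ (h_v ^ ∨) ^ {⊗ b}` for `v` outside a set of density zero, and suppose that for one
index `j₁` there is a semisimple `n`-dimensional representation over `k_{j₁}` attached to the `P_v`.
Then there are finitely many irreducible algebraic representations `R_i`, `i ∈ I`, of `H` over `A`,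
whose dimensions have the sum `n`, such that `P_v` is the product of the characteristic polynomials
of the `R_i(h_v)` for all `v` outside `S_{j₁}`, and such that for *all* `j` the `R_i ∘ W_j` are
irreducible representations, and every representation `ρ` over `k_j` attached to the `P_v` outside
`S_j` has the same characteristic polynomials as the direct sum of the `R_i ∘ W_j` (so these are its
irreducible constituents), and is irreducible if and only if `I` has one element. -/
theorem result {m n : ℕ} (hn : 0 < n) (K : Type) [Field K] [NumberField K] (A : Type) [Field A]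
    [CharZero A] [IsAlgClosed A]
    (H : Subgroup (Matrix.GeneralLinearGroup (Fin m) A))
    (h : HeightOneSpectrum (𝓞 K) → Matrix.GeneralLinearGroup (Fin m) A) (hh : ∀ v, h v ∈ H)
    (P : HeightOneSpectrum (𝓞 K) → A[X])
    (J : Type) (k : J → Type) [∀ j, Field (k j)] [∀ j, IsAlgClosed (k j)]
    [∀ j, TopologicalSpace (k j)] [∀ j, IsTopologicalRing (k j)] [∀ j, T2Space (k j)]
    (ι : ∀ j, A →+* k j) (S : J → Set (HeightOneSpectrum (𝓞 K)))
    (hS : ∀ j, HasDensityZero (S j))
    (W : ∀ j, AbsGal K →* Matrix.GeneralLinearGroup (Fin m) (k j))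
    (hW : ∀ j, IsDenseAndAttachedToClasses H h (S j) (ι j) (W j))
    (a b : ℕ) (T : Set (HeightOneSpectrum (𝓞 K))) (hT : HasDensityZero T)
    (hdiv : ∀ v ∉ T, P v ∣ (tensorConstruction (h v) a b).charpoly)
    (j₁ : J) (ρ₁ : AbsGal K →* Matrix.GeneralLinearGroup (Fin n) (k j₁)) (hss : IsSemisimple ρ₁)
    (hρ₁ : IsAttached P (S j₁) (ι j₁) ρ₁) :
    ∃ (I : Type) (_ : Fintype I) (d : I → ℕ)
      (R : ∀ i, Matrix (Fin (d i)) (Fin (d i)) (RegularFunction m A)),
      ∑ i, d i = n ∧ (∀ i, IsIrreducibleRepresentation H (R i)) ∧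
      (∀ v ∉ S j₁, P v = ∏ i, (matrixValue (R i) (h v)).charpoly) ∧
      ∀ j, ∃ r : ∀ i, AbsGal K →* Matrix.GeneralLinearGroup (Fin (d i)) (k j),
        (∀ i σ, (r i σ : Matrix (Fin (d i)) (Fin (d i)) (k j)) =
          matrixValue ((R i).map (MvPolynomial.map (ι j))) (W j σ)) ∧
        (∀ i, IsIrreducible (r i)) ∧
        ∀ ρ : AbsGal K →* Matrix.GeneralLinearGroup (Fin n) (k j),
          IsAttached P (S j) (ι j) ρ →
          (∀ σ, (ρ σ : Matrix (Fin n) (Fin n) (k j)).charpoly =
            ∏ i, (r i σ : Matrix (Fin (d i)) (Fin (d i)) (k j)).charpoly) ∧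
          (IsIrreducible ρ ↔ Fintype.card I = 1) := by
  have hthin := fun S hS => Pool.Agent.TH119.GO.thin_of_tendsto (K := K) S hS
  have hatt : ∀ j, Pool.Agent.TH119.FT.AttH H h (S j) (ι j) (W j) := fun j =>
    ⟨(hW j).continuous, (hW j).mem, (hW j).frobenius⟩
  have hdense : ∀ j, ∀ x ∈ H, Pool.Agent.TH119.FT.gm (ι j) x ∈
      Pool.Agent.TH119.FT.zcl (Set.range (W j)) := fun j x hx =>
    (hW j).dense (Pool.Agent.TH119.FT.gm_mem H (ι j) hx)
  obtain ⟨I, _, d, R, h1, h2, h3, h4, h5, h6⟩ := Pool.Agent.TH119.IA.final hn H h hh P (ι j₁)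
    (S j₁) (hthin _ (hS j₁)) (W j₁) (hatt j₁) (hdense j₁) ρ₁ hρ₁.continuous hss hρ₁.frobenius a b
    T (hthin _ hT) hdiv
  refine ⟨I, inferInstance, d, R, h2, fun i => ⟨h3 i, h1 i, h4 i⟩, h5, fun j => ?_⟩
  obtain ⟨r, h7, h8, h9⟩ := h6 (k j) (ι j) (S j) (hthin _ (hS j)) (W j) (hatt j) (hdense j)
  exact ⟨r, h7, h8, fun ρ hρ => h9 ρ hρ.continuous hρ.frobenius⟩

end Pool.Agent.Results.MP_fa5bba_nt.DecompositionIndependentOfPrime
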