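import Mathlib
import Pool.Agent.TH119.IR.Main

/-!
# Irreducibility of Galois representations attached to cuspidal representations of Artin type

Let `K` and `E` be number fields and let `P_v` be polynomials over the ring of integers of `E`, for
the primes `v` of `K` (the Hecke polynomials of a cuspidal automorphic representation of `GL_n` over
`K` of Artin type).  Suppose that the traces and all their conjugates are bounded on a set of primes
of upper density greater than `1 - 1 / n ^ 2`, and that a semisimple `ℓ`-adic representation `ρ` is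
attached to the `P_v`.  Then for every complex embedding the mean square of the traces tends to the
dimension of the commutant of `ρ`.  If a mean square is not essentially at least `2` (cuspidality
gives the mean square `1`), all representations attached to the `P_v`, over all fields of
characteristic zero and modulo almost all primes of `E`, are absolutely irreducible.
-/

namespace Pool.Agent.Results.MP_fa5bba_nt.IrreducibleArtinType

open NumberField IsDedekindDomain Polynomial Filter Topology

/-- The absolute Galois group, with the Krull topology. -/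
abbrev AbsGal (K : Type) [Field K] : Type := Gal(AlgebraicClosure K/K)

/-- `σ` is a Frobenius element at the prime `v` of `K`: there is a maximal ideal `Q` above `v` of the
ring of all algebraic integers with `σ x ≡ x ^ N(v)` modulo `Q` for all `x`. -/
def IsFrobenius {K : Type} [Field K] [NumberField K] (v : HeightOneSpectrum (𝓞 K))
    (σ : AbsGal K) : Prop :=
  ∃ Q : Ideal (𝓞 (AlgebraicClosure K)), Q.IsMaximal ∧
    Q.comap (algebraMap (𝓞 K) (𝓞 (AlgebraicClosure K))) = v.asIdeal ∧
    ∀ x : 𝓞 (AlgebraicClosure K), σ • x - x ^ Ideal.absNorm v.asIdeal ∈ Q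

/-- The representation `ρ` of the absolute Galois group of `K` over the topological field `k` is
attached to the polynomials `P_v` outside `S`, where `φ : 𝓞 E → k` is used to compare the
coefficients: it is continuous, and for the primes `v` outside `S` with `N(v) ≠ 0` in `k` all
Frobenius elements at `v` have the characteristic polynomial `φ(P_v)`. -/
structure IsAttached {K E : Type} [Field K] [NumberField K] [Field E] [NumberField E] {n : ℕ}
    (P : HeightOneSpectrum (𝓞 K) → (𝓞 E)[X]) (S : Set (HeightOneSpectrum (𝓞 K)))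
    {k : Type} [Field k] [TopologicalSpace k] (φ : 𝓞 E →+* k)
    (ρ : AbsGal K →* Matrix.GeneralLinearGroup (Fin n) k) : Prop where
  continuous : Continuous fun g => (ρ g : Matrix (Fin n) (Fin n) k)
  frobenius : ∀ v ∉ S, ((Ideal.absNorm v.asIdeal : ℕ) : k) ≠ 0 → ∀ σ, IsFrobenius v σ →
    (ρ σ : Matrix (Fin n) (Fin n) k).charpoly = (P v).map φ

/-- The representation `ρ` is semisimple: every stable subspace has a stable complement. -/
def IsSemisimple {G : Type} [Group G] {n : ℕ} {k : Type} [Field k]
    (ρ : G →* Matrix.GeneralLinearGroup (Fin n) k) : Prop :=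
  ∀ W : Submodule k (Fin n → k),
    (∀ g, ∀ x ∈ W, (ρ g : Matrix (Fin n) (Fin n) k).mulVec x ∈ W) →
    ∃ W' : Submodule k (Fin n → k),
      (∀ g, ∀ x ∈ W', (ρ g : Matrix (Fin n) (Fin n) k).mulVec x ∈ W') ∧ IsCompl W W'

/-- The representation `ρ` is absolutely irreducible: over every field containing `k` the only
stable subspaces are the trivial ones. -/
def IsAbsolutelyIrreducible {G : Type} [Group G] {n : ℕ} {k : Type} [Field k]
    (ρ : G →* Matrix.GeneralLinearGroup (Fin n) k) : Prop :=
  ∀ (k' : Type) [Field k'] (f : k →+* k') (W : Submodule k' (Fin n → k')),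
    (∀ g, ∀ x ∈ W, ((ρ g : Matrix (Fin n) (Fin n) k).map f).mulVec x ∈ W) → W = ⊥ ∨ W = ⊤

/-- The commutant of `ρ`: the matrices which commute with all `ρ(g)`. -/
def commutant {G : Type} [Group G] {n : ℕ} {k : Type} [Field k]
    (ρ : G →* Matrix.GeneralLinearGroup (Fin n) k) : Submodule k (Matrix (Fin n) (Fin n) k) where
  carrier := {X | ∀ g, X * (ρ g : Matrix (Fin n) (Fin n) k) = ρ g * X}
  add_mem' := by
    intro a b ha hb g
    rw [add_mul, mul_add, ha g, hb g]
  zero_mem' := fun g => by rw [zero_mul, mul_zero]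
  smul_mem' := by
    intro c a ha g
    rw [smul_mul_assoc, mul_smul_comm, ha g]

/-- The upper natural density of the set `V` of primes of `K` is greater than `δ₀`: there is
`δ > δ₀` such that for arbitrarily large `N` at least `δ` times the number of primes of norm at most
`N` are in `V`. -/
def UpperDensityGT {K : Type} [Field K] [NumberField K] (V : Set (HeightOneSpectrum (𝓞 K)))
    (δ₀ : ℝ) : Prop :=
  ∃ δ : ℝ, δ₀ < δ ∧ ∃ᶠ N : ℕ in atTop,
    δ * {v : HeightOneSpectrum (𝓞 K) | Ideal.absNorm v.asIdeal ≤ N}.ncard ≤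
      {v : HeightOneSpectrum (𝓞 K) | Ideal.absNorm v.asIdeal ≤ N ∧ v ∈ V}.ncard

/-- The mean of `|τ(c_v)|²` over the (finitely many) primes `v` of norm at most `N`, where `c_v` is
the coefficient of `X ^ (n - 1)` in `P_v`. -/
noncomputable def meanSquare {K E : Type} [Field K] [NumberField K] [Field E] [NumberField E]
    (n : ℕ) (P : HeightOneSpectrum (𝓞 K) → (𝓞 E)[X]) (τ : E →+* ℂ) (N : ℕ) : ℝ :=
  (∑ᶠ v ∈ {v : HeightOneSpectrum (𝓞 K) | Ideal.absNorm v.asIdeal ≤ N},
    ‖τ ((P v).coeff (n - 1) : 𝓞 E)‖ ^ 2) /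
    {v : HeightOneSpectrum (𝓞 K) | Ideal.absNorm v.asIdeal ≤ N}.ncard

/-- **Theorem.** Let `K`, `E` be number fields, `n ≥ 1`, and let `P_v` be polynomials over the ring
of integers of `E`. Suppose that the set of primes `v` at which the coefficient of `X ^ (n - 1)` in
`P_v` and all its conjugates are bounded by some `B` has upper density greater than `1 - 1 / n ^ 2`.
Let `ρ` be a semisimple `n`-dimensional representation over a Hausdorff topological field `k`,
attached to the `P_v` outside a finite set `S`, by means of an embedding of `E` in `k`. Then `ρ` has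
an open kernel, and for every complex embedding `τ` of `E` the mean square of the traces tends to
the dimension of the commutant of `ρ`. If for some `τ` it is at most some `c < 2` for arbitrarily
large `N`, there is `D ≠ 0` in the ring of integers of `E` such that every representation attached
to the `P_v` outside a finite set over a Hausdorff topological field `k'`, by means of
`φ : 𝓞 E → k'` with `φ(D) ≠ 0`, is absolutely irreducible. -/
theorem result {n : ℕ} (hn : 0 < n) (K : Type) [Field K] [NumberField K] (E : Type) [Field E]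
    [NumberField E] (P : HeightOneSpectrum (𝓞 K) → (𝓞 E)[X]) (B : ℝ)
    (hB : UpperDensityGT {v | ∀ τ : E →+* ℂ, ‖τ ((P v).coeff (n - 1) : 𝓞 E)‖ ≤ B}
      (1 - 1 / (n : ℝ) ^ 2))
    (S : Set (HeightOneSpectrum (𝓞 K))) (hS : S.Finite)
    (k : Type) [Field k] [TopologicalSpace k] [IsTopologicalRing k] [T2Space k] (ι : E →+* k)
    (ρ : AbsGal K →* Matrix.GeneralLinearGroup (Fin n) k)
    (hss : IsSemisimple ρ) (hρ : IsAttached P S (ι.comp (algebraMap (𝓞 E) E)) ρ) :
    IsOpen (ρ.ker : Set (AbsGal K)) ∧
    (∀ τ : E →+* ℂ, Tendsto (meanSquare n P τ) atTop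
      (𝓝 (Module.finrank k (commutant ρ)))) ∧
    ((∃ τ : E →+* ℂ, ∃ c < (2 : ℝ), ∃ᶠ N : ℕ in atTop, meanSquare n P τ N ≤ c) →
      ∃ D : 𝓞 E, D ≠ 0 ∧ ∀ (k' : Type) [Field k'] [TopologicalSpace k'] [IsTopologicalRing k']
        [T2Space k'] (φ : 𝓞 E →+* k') (S' : Set (HeightOneSpectrum (𝓞 K)))
        (ρ' : AbsGal K →* Matrix.GeneralLinearGroup (Fin n) k'), φ D ≠ 0 → S'.Finite →
        IsAttached P S' φ ρ' → IsAbsolutelyIrreducible ρ') := by
  classical
  have : CharZero k := charZero_of_injective_ringHom ι.injective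
  obtain ⟨δ, hδ, hfreq⟩ := hB
  have hset : ∀ N : ℕ, {v : HeightOneSpectrum (𝓞 K) | Ideal.absNorm v.asIdeal ≤ N} =
      (Pool.Agent.W540.BE.upto K N : Set (HeightOneSpectrum (𝓞 K))) := by
    intro N
    ext v
    rw [Set.mem_ofPred_eq, Finset.mem_coe, Pool.Agent.W540.BE.mem_upto]
    rfl
  have hNv : ∀ v : HeightOneSpectrum (𝓞 K), ((Ideal.absNorm v.asIdeal : ℕ) : k) ≠ 0 := by
    intro v
    rw [Nat.cast_ne_zero, Ne, Ideal.absNorm_eq_zero_iff]
    exact v.ne_bot
  obtain ⟨h1, h2, h3⟩ := Pool.Agent.TH119.IR.main hn P S hS k ι ρ hρ.continuous hss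
    (fun v hv => hρ.frobenius v hv (hNv v)) B δ hδ (by
      refine hfreq.mono fun N hN => ?_
      refine ⟨(Pool.Agent.W540.BE.upto K N).filter fun v =>
        ∀ τ : E →+* ℂ, ‖τ ((P v).coeff (n - 1) : 𝓞 E)‖ ≤ B, ?_, ?_⟩
      · intro v hv
        rw [Finset.mem_filter, Pool.Agent.W540.BE.mem_upto] at hv
        exact hv
      · rw [hset, Set.ncard_coe_finset] at hN
        refine hN.trans (le_of_eq ?_)
        rw [← Set.ncard_coe_finset]
        congr 2
        ext v
        rw [Set.mem_ofPred_eq, Finset.mem_coe, Finset.mem_filter, Pool.Agent.W540.BE.mem_upto]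
        rfl)
  have hmean : ∀ (τ : E →+* ℂ) (N : ℕ), meanSquare n P τ N =
      (∑ v ∈ Pool.Agent.W540.BE.upto K N, ‖τ ((P v).coeff (n - 1) : 𝓞 E)‖ ^ 2) /
        ((Pool.Agent.W540.BE.upto K N).card : ℝ) := by
    intro τ N
    rw [meanSquare, hset, Set.ncard_coe_finset, finsum_mem_coe_finset]
  have hcard : Tendsto (fun N : ℕ => ((Pool.Agent.W540.BE.upto K N).card : ℝ) /
      (Nat.primeCounting N : ℝ)) atTop (𝓝 1) := Pool.Agent.TH119.IR.tendsto_card K
  have hpi : Tendsto (fun N : ℕ => (Nat.primeCounting N : ℝ)) atTop atTop :=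
    tendsto_natCast_atTop_atTop.comp Nat.tendsto_primeCounting
  have hlim : ∀ τ : E →+* ℂ, Tendsto (meanSquare n P τ) atTop
      (𝓝 (Module.finrank k (commutant ρ))) := by
    intro τ
    have h4 := (h2 τ).div hcard one_ne_zero
    rw [div_one] at h4
    refine h4.congr' ?_
    filter_upwards [hpi.eventually_gt_atTop 0] with N hN
    rw [Pi.div_apply, hmean, div_div_div_cancel_right₀ hN.ne']
  refine ⟨h1, hlim, ?_⟩
  rintro ⟨τ, c, hc, hfr⟩
  have hle : (Module.finrank k (commutant ρ) : ℝ) ≤ c := by
    by_contra hcon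
    push Not at hcon
    obtain ⟨N, h5, h6⟩ := (hfr.and_eventually ((hlim τ).eventually_const_lt hcon)).exists
    linarith
  obtain ⟨D, hD, h4⟩ := h3 ⟨τ, (c + 2) / 2, by linarith, by
    have h5 : Tendsto _ atTop (𝓝 (Module.finrank k (commutant ρ) : ℝ)) := h2 τ
    have h6 := (h5.eventually_lt_const (show (Module.finrank k (commutant ρ) : ℝ) < (c + 2) / 2 by
      linarith)).and (hpi.eventually_gt_atTop 0)
    refine Eventually.frequently (h6.mono fun N hN => ?_)
    have h7 := hN.1
    rw [div_lt_iff₀ hN.2] at h7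
    exact h7.le⟩
  refine ⟨D, hD, fun k' _ _ _ _ φ S' ρ' hφ hS' hρ' => ?_⟩
  intro k'' _ f W hW
  exact Pool.Agent.TH119.IR.irreducible_of_sp ρ'
    (h4 k' φ S' ρ' hφ hS' hρ'.continuous hρ'.frobenius) f W hW

end Pool.Agent.Results.MP_fa5bba_nt.IrreducibleArtinType
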